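import Pool.Agent.Lib.FibC.SeM
import Pool.Agent.Lib.FibC.Fib
import Pool.Agent.Lib.FibC.CoX
import Pool.Agent.Lib.FibC.CoY
import Pool.Agent.Lib.FibC.Emb
import Pool.Agent.Lib.FibC.ChX

/-!
# A Seifert manifold in the 4-sphere whose fibre is zero in the homology of a region with Euler characteristic zero
-/

set_option autoImplicit false

namespace Pool.Agent.Results.MP_599b3d_gt.FibreClass

open Pool.Agent.FibC Set AlgebraicTopology

/-- `X` is a complementary region of the locally flat hypersurface `M` of the `4`-sphere, the other one being the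
closure of its complement -/
structure IsRegion (X M : Set S4) : Prop where
  closed : IsClosed X
  boundary : frontier X = M
  flat : LocFlat X M
  inside : IsConnected (interior X)
  outside : IsConnected Xᶜ

private theorem image_int {S T : Type} [TopologicalSpace S] [TopologicalSpace T] {J : S → T}
    (hJ : Topology.IsOpenEmbedding J) (A : Set S) : interior (J '' A) = J '' interior A := by
  apply Subset.antisymm
  · intro y hy
    obtain ⟨x, hx, rfl⟩ := interior_subset hy
    refine ⟨x, ?_, rfl⟩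
    have h1 : J ⁻¹' interior (J '' A) ⊆ A := by
      intro z hz
      obtain ⟨z', hz', h⟩ := interior_subset hz
      rw [← hJ.injective h]; exact hz'
    exact interior_maximal h1 (isOpen_interior.preimage hJ.continuous) hy
  · exact interior_maximal (image_mono interior_subset)
      (hJ.isOpenMap _ isOpen_interior)

private theorem region {ε : ℝ} (h : IsTube ε) {J : S2 × ℂ → S4} (hJ : Topology.IsOpenEmbedding J)
    (hJc : IsPathConnected (J '' {q : S2 × ℂ | ‖q.2‖ ≤ 1})ᶜ) :
    IsRegion (J '' XX ε) (J '' MM ε) := by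
  have hcl : IsClosed (J '' XX ε) := ((XX_compact h).image hJ.continuous).isClosed
  refine ⟨hcl, ?_, ?_, ?_, ?_⟩
  · rw [hcl.frontier_eq, image_int hJ, ← image_sdiff hJ.injective,
      ← (XX_compact h).isClosed.frontier_eq, frontier_XX h]
  · rintro _ ⟨q, hq, rfl⟩
    obtain ⟨e, he, hev⟩ := flat_all h hq
    have : Nonempty (S2 × ℂ) := ⟨q⟩
    refine ⟨(hJ.toOpenPartialHomeomorph J).symm.trans e, ?_, ?_⟩
    · rw [OpenPartialHomeomorph.trans_source]
      refine ⟨?_, ?_⟩
      · simp
      · rw [mem_preimage, hJ.toOpenPartialHomeomorph_left_inv]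
        exact he
    · intro p hp
      rw [OpenPartialHomeomorph.trans_source] at hp
      obtain ⟨hp1, hp2⟩ := hp
      have hp1' : p ∈ range J := by simpa using hp1
      obtain ⟨x, rfl⟩ := hp1'
      rw [mem_preimage, hJ.toOpenPartialHomeomorph_left_inv] at hp2
      have hval : ((hJ.toOpenPartialHomeomorph J).symm.trans e) (J x) = e x := by
        rw [OpenPartialHomeomorph.coe_trans, Function.comp_apply,
          hJ.toOpenPartialHomeomorph_left_inv]
      rw [hval, hJ.injective.mem_set_image, hJ.injective.mem_set_image]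
      exact hev x hp2
  · rw [image_int hJ]
    exact (conn_int h).image _ hJ.continuous.continuousOn
  · apply IsPathConnected.isConnected
    obtain ⟨y, hy, hyj⟩ := hJc
    have hsub : (J '' {q : S2 × ℂ | ‖q.2‖ ≤ 1})ᶜ ⊆ (J '' XX ε)ᶜ :=
      compl_subset_compl.2 (image_mono (XX_sub h).1)
    refine ⟨y, hsub hy, fun {z} hz => ?_⟩
    by_cases hzO : z ∈ (J '' {q : S2 × ℂ | ‖q.2‖ ≤ 1})ᶜ
    · exact (hyj hzO).mono hsub
    · rw [notMem_compl_iff] at hzO
      obtain ⟨q, hq, rfl⟩ := hzO
      have hqX : q ∉ XX ε := fun hq' => hz ⟨q, hq', rfl⟩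
      obtain ⟨q', hq', hj⟩ := join_out h hqX
      have h1 : J q' ∈ (J '' {q : S2 × ℂ | ‖q.2‖ ≤ 1})ᶜ := by
        rintro ⟨q'', h2, h3⟩
        have h4 := hJ.injective h3
        rw [h4] at h2
        exact absurd h2 (not_le.2 hq')
      have h2 : JoinedIn (J '' XX ε)ᶜ (J q) (J q') := by
        have h3 := hj.map hJ.continuous
        refine h3.mono ?_
        rintro _ ⟨x, hx, rfl⟩ ⟨x', hx', h4⟩
        exact hx (hJ.injective h4 ▸ hx')
      exact ((hyj h1).mono hsub).trans h2.symm

/-- Q1 has a negative answer: the `ℍ² × 𝔼¹`-manifold `M = M(1; (3, 1), (3, -1))` has a locally flat embedding in the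
`4`-sphere with a complementary region `X` such that `χ(X) = 0` and the regular fibre is null-homotopic in `X`; in particular
the regular fibre induces the zero map in rational singular homology `H₁(S¹) → H₁(X)`. -/
theorem result : ∃ (X M : Set S4) (h : C(Circle, X)),
    IsH2E1 (![3, 3] : Fin 2 → ℤ) (![1, -1] : Fin 2 → ℤ) ∧
    IsSeifert (![3, 3] : Fin 2 → ℤ) (![1, -1] : Fin 2 → ℤ) M (fun s => (h s : S4)) ∧
    IsRegion X M ∧ HasChi X 0 ∧ h.Nullhomotopic ∧
    ((singularHomologyFunctor (ModuleCat.{0} ℚ) 1).obj (ModuleCat.of ℚ ℚ)).map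
      (TopCat.ofHom h) = 0 := by
  obtain ⟨ε, hε⟩ := tube_exists
  obtain ⟨J, hJ, hJc⟩ := emb_exists
  obtain ⟨H, hHc, hHm, hH1, hH0⟩ := fib_disc hε
  -- the homotopy as a map to `X`
  have hcont : Continuous fun z : unitInterval × Circle => H ((z.1 : ℝ), z.2) := by
    have : Continuous fun z : unitInterval × Circle => (((z.1 : ℝ), z.2) : ℝ × Circle) := by
      fun_prop
    exact hHc.comp_continuous this fun z => ⟨z.1.2, mem_univ _⟩
  let K : C(unitInterval × Circle, J '' XX ε) :=
    ⟨fun z => ⟨J (H ((z.1 : ℝ), z.2)), ⟨_, hHm _ ⟨z.1.2, mem_univ _⟩, rfl⟩⟩,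
      (hJ.continuous.comp hcont).subtype_mk _⟩
  let h : C(Circle, J '' XX ε) := K.comp ⟨fun s => (1, s), by fun_prop⟩
  let h0 : C(Circle, J '' XX ε) := K.comp ⟨fun s => (0, s), by fun_prop⟩
  have hval : ∀ s, (h s : S4) = J (Phi ((s : ℂ), (ε : ℂ))) := by
    intro s
    have : (h s : S4) = J (H (((1 : unitInterval) : ℝ), s)) := rfl
    rw [this, ← hH1 s]; rfl
  have hnull : h.Nullhomotopic := by
    have hp : Phi (0, (ε : ℂ)) ∈ XX ε := by
      rw [← hH0 1]
      exact hHm _ ⟨by constructor <;> norm_num, mem_univ _⟩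
    refine ⟨⟨J (Phi (0, (ε : ℂ))), ⟨_, hp, rfl⟩⟩, ?_⟩
    have e0 : h0 = ContinuousMap.const _ ⟨J (Phi (0, (ε : ℂ))), ⟨_, hp, rfl⟩⟩ := by
      refine ContinuousMap.ext fun s => Subtype.ext ?_
      have h1 : (h0 s : S4) = J (H (((0 : unitInterval) : ℝ), s)) := rfl
      have h2 : H (((0 : unitInterval) : ℝ), s) = Phi (0, (ε : ℂ)) := hH0 s
      rw [h1, h2]; rfl
    rw [← e0]
    exact ContinuousMap.Homotopic.symm ⟨⟨K, fun s => rfl, fun s => rfl⟩⟩
  refine ⟨J '' XX ε, J '' MM ε, h, ?_, ?_, region hε hJ hJc, ?_, hnull, hom_zero h hnull⟩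
  · refine ⟨?_, ?_, ?_⟩
    · intro i
      fin_cases i
      · exact isCoprime_one_right
      · exact isCoprime_one_right.neg_right
    · simp only [Fin.sum_univ_two, Matrix.cons_val_zero, Matrix.cons_val_one]; norm_num
    · simp only [Fin.sum_univ_two, Matrix.cons_val_zero, Matrix.cons_val_one]; norm_num
  · have h1 := map_seifert (seifert hε) hJ.continuous hJ.injective
    have h2 : (fun s => (h s : S4)) = J ∘ fun s : Circle => Phi ((s : ℂ), (ε : ℂ)) := by
      funext s; rw [hval s]; rfl
    rw [h2]; exact h1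
  · exact HasChi.homeo (hJ.isEmbedding.homeomorphImage (XX ε)) (chi_X hε)

end Pool.Agent.Results.MP_599b3d_gt.FibreClass
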